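import Pool.Agent.VTP.StmtsA

/-!
# Row TWS of squad VTP: the sum for the twist knots
-/

set_option autoImplicit false

namespace Pool.Agent.VTP.H87

open Finset Pool.Agent.ZOL Pool.Agent.VTP

theorem sT_even (n : ℕ) : sT (2 * n + 2) = 1 := by
  have h1 : ¬ (2 * n + 2 = 0) := by omega
  have h2 : ¬ (2 * n + 2 = 1) := by omega
  have h3 : (2 * n + 2) % 2 = 0 := by omega
  unfold sT
  rw [if_neg h1, if_neg h2, if_pos h3]

theorem sT_odd (n : ℕ) : sT (2 * n + 2 + 1) = -1 := by
  have h1 : ¬ (2 * n + 2 + 1 = 0) := by omega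
  have h2 : ¬ (2 * n + 2 + 1 = 1) := by omega
  have h3 : ¬ ((2 * n + 2 + 1) % 2 = 0) := by omega
  unfold sT
  rw [if_neg h1, if_neg h2, if_neg h3]

theorem sum_sT (N : ℕ) : ∑ d ∈ range (2 * N + 2), sT d = 0 := by
  induction N with
  | zero => decide
  | succ n ih =>
    rw [show 2 * (n + 1) + 2 = 2 * n + 2 + 1 + 1 by ring, sum_range_succ, sum_range_succ, ih,
      sT_even, sT_odd]
    norm_num

theorem key (N : ℕ) (S : Finset ℕ) (hS : S ⊆ range (2 * N + 2)) (hNI : NI iT S) (F : Finset ℕ)
    (hF : ∀ d, d ∈ F ↔ d ∈ range (2 * N + 2) ∧ d ∉ S ∧ ∀ c ∈ S, ¬ iT c d) :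
    ∑ d ∈ F, sT d = - ∑ c ∈ S, sT c := by
  rcases S.eq_empty_or_nonempty with hE | ⟨c, hc⟩
  · have : F = range (2 * N + 2) := by
      ext d
      rw [hF d, hE]
      simp
    rw [this, hE, sum_sT, sum_empty, neg_zero]
  · by_cases h2 : c < 2
    · have hall : ∀ d ∈ S, d < 2 := by
        intro d hd
        by_contra hd2
        exact hNI c hc d hd (Or.inl ⟨h2, by omega⟩)
      have hFe : F = range 2 \ S := by
        ext d
        rw [hF d, mem_sdiff, mem_range, mem_range]
        constructor
        · rintro ⟨h1, h3, h4⟩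
          refine ⟨?_, h3⟩
          by_contra h5
          exact h4 c hc (Or.inl ⟨h2, by omega⟩)
        · rintro ⟨h1, h3⟩
          refine ⟨by omega, h3, ?_⟩
          intro e he h6
          have h7 := hall e he
          rcases h6 with h6 | h6 <;> omega
      have hsub : S ⊆ range 2 := fun d hd => mem_range.2 (hall d hd)
      have h8 := sum_sdiff hsub (f := sT)
      have h0 : ∑ d ∈ range 2, sT d = 0 := sum_sT 0
      rw [hFe]
      linarith
    · have hall : ∀ d ∈ S, 2 ≤ d := by
        intro d hd
        by_contra hd2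
        exact hNI c hc d hd (Or.inr ⟨by omega, by omega⟩)
      have hFe : F = (range (2 * N + 2) \ range 2) \ S := by
        ext d
        rw [hF d, mem_sdiff, mem_sdiff, mem_range, mem_range]
        constructor
        · rintro ⟨h1, h3, h4⟩
          refine ⟨⟨h1, ?_⟩, h3⟩
          intro h5
          exact h4 c hc (Or.inr ⟨h5, by omega⟩)
        · rintro ⟨⟨h1, h5⟩, h3⟩
          refine ⟨h1, h3, ?_⟩
          intro e he h6
          have h7 := hall e he
          rcases h6 with h6 | h6 <;> omega
      have hsub : S ⊆ range (2 * N + 2) \ range 2 := by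
        intro d hd
        rw [mem_sdiff, mem_range, mem_range]
        have h9 := hall d hd
        have h10 := mem_range.1 (hS hd)
        omega
      have h8 := sum_sdiff hsub (f := sT)
      have hsub2 : range 2 ⊆ range (2 * N + 2) := range_mono (by omega)
      have h11 := sum_sdiff hsub2 (f := sT)
      have h0 : ∑ d ∈ range 2, sT d = 0 := sum_sT 0
      have h12 := sum_sT N
      rw [hFe]
      linarith

theorem nn_eq (N : ℕ) (S : Finset ℕ) (hS : S ⊆ range (2 * N + 2)) (hNI : NI iT S) :
    NN (range (2 * N + 2)) sT (fun _ => -1) iT S = 2 * ((N : ℤ) + 1 - ∑ c ∈ S, sT c) := by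
  classical
  unfold NN
  rw [key N S hS hNI _ (fun d => mem_filter)]
  have hw : ∑ _d ∈ range (2 * N + 2), (-1 : ℤ) = -(2 * N + 2) := by
    rw [sum_const, card_range, nsmul_eq_mul]
    push_cast
    ring
  rw [hw]
  ring

theorem q_sum {R : Type} [CommRing R] (q : ℤ → R) (hq : IsExp q) (f : ℕ → ℤ) (S : Finset ℕ) :
    q (∑ c ∈ S, f c) = ∏ c ∈ S, q (f c) := by
  classical
  induction S using Finset.induction_on with
  | empty => rw [sum_empty, prod_empty, hq.1]
  | insert a S ha ih => rw [sum_insert ha, prod_insert ha, hq.2, ih]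

theorem prod_W {R : Type} [CommRing R] (q : ℤ → R) (hq : IsExp q) (N : ℕ) :
    ∏ c ∈ range (2 * N + 2) \ range 2, (1 + xx q sT (fun _ => -1) c * q (- sT c)) = q (-(N : ℤ)) := by
  induction N with
  | zero =>
    rw [show range (2 * 0 + 2) \ range 2 = ∅ by rw [sdiff_eq_empty_iff_subset], prod_empty]
    rw [show -((0 : ℕ) : ℤ) = 0 by simp, hq.1]
  | succ n ih =>
    have hset : range (2 * (n + 1) + 2) \ range 2 =
        insert (2 * n + 2 + 1) (insert (2 * n + 2) (range (2 * n + 2) \ range 2)) := by
      ext d
      simp only [mem_sdiff, mem_range, mem_insert]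
      omega
    have h1 : 2 * n + 2 ∉ range (2 * n + 2) \ range 2 := by
      simp
    have h2 : 2 * n + 2 + 1 ∉ insert (2 * n + 2) (range (2 * n + 2) \ range 2) := by
      simp only [mem_insert, mem_sdiff, mem_range]
      omega
    rw [hset, prod_insert h2, prod_insert h1, ih]
    have hx1 : xx q sT (fun _ => -1) (2 * n + 2 + 1) = 0 := by
      unfold xx
      rw [sT_odd, if_pos rfl]
    have hx2 : xx q sT (fun _ => -1) (2 * n + 2) = 1 - q 1 := by
      unfold xx
      rw [sT_even, if_neg (by norm_num)]
    rw [hx1, hx2, sT_even]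
    have h3 : q 1 * q (-1) = 1 := by
      rw [← hq.2, show (1 : ℤ) + -1 = 0 by norm_num, hq.1]
    have h4 : q (-((n + 1 : ℕ) : ℤ)) = q (-1) * q (-(n : ℤ)) := by
      rw [← hq.2]
      congr 1
      push_cast
      ring
    rw [h4]
    linear_combination (- q (-(n : ℤ))) * h3

theorem tws : TwsStmt := by
  classical
  refine ⟨?_, ?_⟩
  · intro R _ q hq N
    have hW : range (2 * N + 2) \ range 2 ⊆ range (2 * N + 2) := sdiff_subset
    have hWge : ∀ d ∈ range (2 * N + 2) \ range 2, 2 ≤ d := by
      intro d hd
      rw [mem_sdiff, mem_range, mem_range] at hd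
      omega
    have hNIW : ∀ S ⊆ range (2 * N + 2) \ range 2, NI iT S := by
      intro S hS c hc d hd h
      have h1 := hWge c (hS hc)
      have h2 := hWge d (hS hd)
      rcases h with h | h <;> omega
    have hNI1 : NI iT {1} := by
      intro c hc d hd h
      rw [mem_singleton] at hc hd
      rcases h with h | h <;> omega
    have h1V : ({1} : Finset ℕ) ⊆ range (2 * N + 2) := by
      intro d hd
      rw [mem_singleton] at hd
      rw [mem_range]
      omega
    have h1W : ({1} : Finset ℕ) ∉ (range (2 * N + 2) \ range 2).powerset := by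
      rw [mem_powerset]
      intro h
      have h3 := hWge 1 (h (mem_singleton_self 1))
      omega
    unfold PP
    rw [← sum_subset (s₁ := insert {1} (range (2 * N + 2) \ range 2).powerset)]
    · rw [sum_insert h1W]
      have ht1 : (∏ c ∈ ({1} : Finset ℕ), xx q sT (fun _ => -1) c) *
          q (NN (range (2 * N + 2)) sT (fun _ => -1) iT {1} / 2) = (1 - q 1) * q N := by
        rw [nn_eq N _ h1V hNI1, Int.mul_ediv_cancel_left _ (by norm_num), prod_singleton,
          sum_singleton]
        have hs1 : sT 1 = 1 := by decide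
        have hx : xx q sT (fun _ => -1) 1 = 1 - q 1 := by
          unfold xx
          rw [hs1, if_neg (by norm_num)]
        rw [hx, hs1, add_sub_cancel_right]
      have ht2 : ∑ S ∈ (range (2 * N + 2) \ range 2).powerset,
          (∏ c ∈ S, xx q sT (fun _ => -1) c) *
          q (NN (range (2 * N + 2)) sT (fun _ => -1) iT S / 2) = q 1 := by
        have hstep : ∀ S ∈ (range (2 * N + 2) \ range 2).powerset,
            (∏ c ∈ S, xx q sT (fun _ => -1) c) *
              q (NN (range (2 * N + 2)) sT (fun _ => -1) iT S / 2) =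
            q ((N : ℤ) + 1) * ∏ c ∈ S, (xx q sT (fun _ => -1) c * q (- sT c)) := by
          intro S hS
          rw [mem_powerset] at hS
          rw [nn_eq N S (hS.trans hW) (hNIW S hS), Int.mul_ediv_cancel_left _ (by norm_num),
            prod_mul_distrib, ← q_sum q hq (fun c => - sT c) S, sum_neg_distrib, sub_eq_add_neg,
            hq.2 ((N : ℤ) + 1)]
          ring
        rw [sum_congr rfl hstep, ← mul_sum, ← prod_one_add, prod_W q hq N, ← hq.2]
        congr 1
        ring
      rw [ht1, ht2]
      ring
    · intro S hS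
      rw [mem_insert, mem_powerset] at hS
      rcases hS with hS | hS
      · rw [hS]
        exact mem_filter.2 ⟨mem_powerset.2 h1V, hNI1⟩
      · exact mem_filter.2 ⟨mem_powerset.2 (hS.trans hW), hNIW S hS⟩
    · intro S hS hS2
      rw [mem_insert, mem_powerset, not_or] at hS2
      obtain ⟨hSV, hNI⟩ := mem_filter.1 hS
      rw [mem_powerset] at hSV
      obtain ⟨hS1, hS3⟩ := hS2
      have h4 : ∃ c ∈ S, c < 2 := by
        by_contra h5
        apply hS3
        intro d hd
        rw [mem_sdiff, mem_range, mem_range]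
        refine ⟨mem_range.1 (hSV hd), ?_⟩
        intro h6
        exact h5 ⟨d, hd, h6⟩
      obtain ⟨c, hc, hc2⟩ := h4
      have hall : ∀ d ∈ S, d < 2 := by
        intro d hd
        by_contra hd2
        exact hNI c hc d hd (Or.inl ⟨hc2, by omega⟩)
      have h0S : 0 ∈ S := by
        by_contra h0
        apply hS1
        have hall1 : ∀ d ∈ S, d = 1 := by
          intro d hd
          have h7 := hall d hd
          have h8 : d ≠ 0 := fun h => h0 (h ▸ hd)
          omega
        ext d
        rw [mem_singleton]
        constructor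
        · exact hall1 d
        · intro h
          rw [h, ← hall1 c hc]
          exact hc
      have hx0 : xx q sT (fun _ => -1) 0 = 0 := by
        unfold xx
        rw [if_pos]
        decide
      rw [prod_eq_zero h0S hx0, zero_mul]
  · intro N S hS hNI
    rw [nn_eq N S hS hNI]
    exact even_two_mul _

end Pool.Agent.VTP.H87
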